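import Pool.Agent.MP_dd548e_lc.PreB

set_option autoImplicit false

namespace Pool.Agent.Results.MP_dd548e_lc.PrefixTables

/-- Sequence equivalence is decidable for OL systems in which, for each letter, no right side of
the letter is a proper prefix of another right side of the same letter. -/
theorem result :
    ∃ f : (List (ℕ × List ℕ) × List ℕ) × (List (ℕ × List ℕ) × List ℕ) → Bool,
      Computable f ∧
      ∀ (R₁ : List (ℕ × List ℕ)) (ω₁ : List ℕ) (R₂ : List (ℕ × List ℕ)) (ω₂ : List ℕ),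
        (∀ a : ℕ, (a ∈ ω₁ ∨ ∃ p ∈ R₁, a ∈ p.2) → ∃ w : List ℕ, (a, w) ∈ R₁) →
        (∀ a : ℕ, (a ∈ ω₂ ∨ ∃ p ∈ R₂, a ∈ p.2) → ∃ w : List ℕ, (a, w) ∈ R₂) →
        (∀ (a : ℕ) (u v : List ℕ), (a, u) ∈ R₁ → (a, v) ∈ R₁ → u <+: v → u = v) →
        (∀ (a : ℕ) (u v : List ℕ), (a, u) ∈ R₂ → (a, v) ∈ R₂ → u <+: v → u = v) →
        (f ((R₁, ω₁), (R₂, ω₂)) = true ↔
          {s : ℕ → List ℕ | s 0 = ω₁ ∧ ∀ n : ℕ, ∃ ws : List (List ℕ),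
              List.Forall₂ (fun a w => (a, w) ∈ R₁) (s n) ws ∧ s (n + 1) = ws.flatten} =
          {s : ℕ → List ℕ | s 0 = ω₂ ∧ ∀ n : ℕ, ∃ ws : List (List ℕ),
              List.Forall₂ (fun a w => (a, w) ∈ R₂) (s n) ws ∧ s (n + 1) = ws.flatten}) := by
  obtain ⟨f, hf, h⟩ := Pool.Agent.MP_dd548e_lc.Pre.main
  have t : ∀ (R : List (ℕ × List ℕ)) (ω : List ℕ),
      (∀ a : ℕ, (a ∈ ω ∨ ∃ p ∈ R, a ∈ p.2) → ∃ w : List ℕ, (a, w) ∈ R) →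
      Pool.Agent.MP_dd548e_lc.Pre.Tot R ω := fun R ω k a ha => by
    obtain ⟨w, hw⟩ := k a ((List.mem_append.1 ha).imp_right List.mem_flatMap.1)
    exact List.ne_nil_of_mem (Pool.Agent.MP_dd548e_lc.Pre.mem_rhs.2 hw)
  have u : ∀ R : List (ℕ × List ℕ),
      (∀ (a : ℕ) (u v : List ℕ), (a, u) ∈ R → (a, v) ∈ R → u <+: v → u = v) →
      Pool.Agent.MP_dd548e_lc.Pre.Pf R := fun R k p hp q hq e g =>
    k p.1 p.2 q.2 hp (e ▸ hq) (g ▸ List.take_prefix _ _)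
  refine ⟨f, hf, fun R₁ ω₁ R₂ ω₂ a b c d => (h _ _ _ _ (t _ _ a) (t _ _ b) (u _ c) (u _ d)).trans ?_⟩
  simp only [Pool.Agent.MP_dd548e_lc.Pre.Sq, Pool.Agent.MP_dd548e_lc.Pre.nxt_iff]

end Pool.Agent.Results.MP_dd548e_lc.PrefixTables
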