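import Pool.Agent.MP_dd548e_lc.Bin

set_option autoImplicit false

namespace Pool.Agent.Results.MP_dd548e_lc.TwoLetters

/-- Sequence equivalence is undecidable for propagating OL systems over the two letters `2`, `3`
with the axiom `333`, the second system being the first one with one more rule `3 → u`. -/
theorem result :
    ¬ ∃ f : List (ℕ × List ℕ) × List ℕ → Bool, Computable f ∧
      ∀ (R : List (ℕ × List ℕ)) (u : List ℕ),
        (∀ p ∈ (3, u) :: R, (p.1 = 2 ∨ p.1 = 3) ∧ p.2 ≠ [] ∧ ∀ a ∈ p.2, a = 2 ∨ a = 3) →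
        (∃ w : List ℕ, (2, w) ∈ R) → (∃ w : List ℕ, (3, w) ∈ R) →
        (f (R, u) = true ↔
          {s : ℕ → List ℕ | s 0 = [3, 3, 3] ∧ ∀ n : ℕ, ∃ ws : List (List ℕ),
              List.Forall₂ (fun a w => (a, w) ∈ R) (s n) ws ∧ s (n + 1) = ws.flatten} =
          {s : ℕ → List ℕ | s 0 = [3, 3, 3] ∧ ∀ n : ℕ, ∃ ws : List (List ℕ),
              List.Forall₂ (fun a w => (a, w) ∈ (3, u) :: R) (s n) ws ∧
                s (n + 1) = ws.flatten}) := by
  rintro ⟨f, hf, h⟩
  obtain ⟨R, u, p1, p2, t1, t2, hc⟩ := Pool.Agent.MP_dd548e_lc.Bin.exists_red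
  refine hc (ComputablePred.not (ComputablePred.computable_iff.2
    ⟨fun n => f (R n, u n), hf.comp (p1.to_comp.pair p2.to_comp),
      funext fun n => propext (h _ _ (t1 n) (t2 n).1 (t2 n).2).symm⟩))

end Pool.Agent.Results.MP_dd548e_lc.TwoLetters
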